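import Mathlib
import Pool.Agent.H63.G3.Stm

/-!
# Korovkin's kernel and the first moment of `|u|` (task G3-KERN of helper63, by helper546)
-/

set_option autoImplicit false
set_option linter.all false

namespace Pool.Agent.H546.G3

open Finset

/-- the autocorrelation formula -/
theorem autoc (a : ℕ → ℝ) (u : ℝ) (N : ℕ) :
    (∑ j ∈ range (N + 1), a j * Real.cos (j * u)) ^ 2 +
      (∑ j ∈ range (N + 1), a j * Real.sin (j * u)) ^ 2 =
    ∑ j ∈ range (N + 1), a j ^ 2 +
      2 * ∑ l ∈ Icc 1 N, (∑ j ∈ range (N + 1 - l), a j * a (j + l)) * Real.cos (l * u) := by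
  induction N with
  | zero =>
    simp
  | succ N ih =>
    rw [sum_range_succ _ (N + 1), sum_range_succ _ (N + 1), sum_range_succ (fun j => a j ^ 2) (N + 1)]
    have h1 : ∑ l ∈ Icc 1 (N + 1), (∑ j ∈ range (N + 1 + 1 - l), a j * a (j + l)) *
        Real.cos (l * u) =
        ∑ l ∈ Icc 1 N, (∑ j ∈ range (N + 1 - l), a j * a (j + l)) * Real.cos (l * u) +
        a (N + 1) * ∑ l ∈ Icc 1 (N + 1), a (N + 1 - l) * Real.cos (l * u) := by
      rw [mul_sum, ← Finset.insert_Icc_right_eq_Icc_add_one (by omega : 1 ≤ N + 1),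
        sum_insert (by simp), sum_insert (by simp)]
      have h2 : ∀ l ∈ Icc 1 N, (∑ j ∈ range (N + 1 + 1 - l), a j * a (j + l)) * Real.cos (l * u) =
          (∑ j ∈ range (N + 1 - l), a j * a (j + l)) * Real.cos (l * u) +
          a (N + 1) * (a (N + 1 - l) * Real.cos (l * u)) := by
        intro l hl
        rw [mem_Icc] at hl
        have e1 : N + 1 + 1 - l = (N + 1 - l) + 1 := by omega
        rw [e1, sum_range_succ]
        have e2 : N + 1 - l + l = N + 1 := by omega
        rw [e2]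
        ring
      rw [sum_congr rfl h2, sum_add_distrib]
      have e3 : N + 1 + 1 - (N + 1) = 1 := by omega
      have e4 : N + 1 - (N + 1) = 0 := by omega
      rw [e3, e4, sum_range_one]
      rw [zero_add]
      ring
    rw [h1, mul_add, ← add_assoc]
    have h3 : ∑ l ∈ Icc 1 (N + 1), a (N + 1 - l) * Real.cos (l * u) =
        (∑ j ∈ range (N + 1), a j * Real.cos (j * u)) * Real.cos ((N + 1 : ℕ) * u) +
        (∑ j ∈ range (N + 1), a j * Real.sin (j * u)) * Real.sin ((N + 1 : ℕ) * u) := by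
      rw [sum_mul, sum_mul, ← sum_add_distrib]
      refine sum_nbij' (fun l => N + 1 - l) (fun j => N + 1 - j) ?_ ?_ ?_ ?_ ?_
      · intro l hl
        rw [mem_Icc] at hl
        rw [mem_range]
        omega
      · intro j hj
        rw [mem_range] at hj
        rw [mem_Icc]
        omega
      · intro l hl
        rw [mem_Icc] at hl
        show N + 1 - (N + 1 - l) = l
        omega
      · intro j hj
        rw [mem_range] at hj
        show N + 1 - (N + 1 - j) = j
        omega
      · intro l hl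
        rw [mem_Icc] at hl
        have e1 : (l : ℝ) * u = ((N + 1 : ℕ) : ℝ) * u - ((N + 1 - l : ℕ) : ℝ) * u := by
          rw [Nat.cast_sub hl.2]
          ring
        rw [e1, Real.cos_sub]
        ring
    rw [h3]
    have h4 := Real.sin_sq_add_cos_sq (((N + 1 : ℕ) : ℝ) * u)
    linear_combination ih + a (N + 1) ^ 2 * h4

theorem int_cos {l : ℕ} (hl : 1 ≤ l) : ∫ u in (-Real.pi)..Real.pi, Real.cos (l * u) = 0 := by
  have h0 : (l : ℝ) ≠ 0 := by positivity
  rw [intervalIntegral.integral_comp_mul_left (fun x => Real.cos x) h0, integral_cos]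
  have h1 : Real.sin ((l : ℝ) * Real.pi) = 0 := Real.sin_nat_mul_pi l
  rw [mul_neg, Real.sin_neg, h1]
  simp

theorem int_cos_cos {l : ℕ} (hl : 1 ≤ l) :
    ∫ u in (-Real.pi)..Real.pi, Real.cos u * Real.cos (l * u) = if l = 1 then Real.pi else 0 := by
  have h1 : ∀ u : ℝ, Real.cos u * Real.cos (l * u) =
      1 / 2 * Real.cos ((l + 1 : ℕ) * u) + 1 / 2 * Real.cos ((l - 1 : ℕ) * u) := by
    intro u
    rw [Nat.cast_sub hl]
    push_cast
    have e1 : ((l : ℝ) + 1) * u = l * u + u := by ring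
    have e2 : ((l : ℝ) - 1) * u = l * u - u := by ring
    rw [e1, e2, Real.cos_add, Real.cos_sub]
    ring
  simp_rw [h1]
  rw [intervalIntegral.integral_add (Continuous.intervalIntegrable (by fun_prop) _ _)
    (Continuous.intervalIntegrable (by fun_prop) _ _), intervalIntegral.integral_const_mul,
    intervalIntegral.integral_const_mul, int_cos (by omega : 1 ≤ l + 1)]
  by_cases h : l = 1
  · rw [if_pos h, h]
    simp
    ring
  · rw [if_neg h, int_cos (by omega : 1 ≤ l - 1)]
    simp

theorem int_kern (N : ℕ) (κ : ℕ → ℝ) (A B : ℝ) :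
    ∫ u in (-Real.pi)..Real.pi,
      (A + B * Real.cos u) * (1 + 2 * ∑ l ∈ Icc 1 N, κ l * Real.cos (l * u)) =
      2 * Real.pi * A + 2 * Real.pi * B * (if 1 ≤ N then κ 1 else 0) := by
  have h1 : ∀ u : ℝ, (A + B * Real.cos u) * (1 + 2 * ∑ l ∈ Icc 1 N, κ l * Real.cos (l * u)) =
      (A + B * Real.cos u) + ∑ l ∈ Icc 1 N, (2 * A * κ l * Real.cos (l * u) +
        2 * B * κ l * (Real.cos u * Real.cos (l * u))) := by
    intro u
    rw [mul_add, mul_one, mul_sum, mul_sum]
    congr 1
    refine sum_congr rfl fun l _ => ?_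
    ring
  simp_rw [h1]
  rw [intervalIntegral.integral_add (Continuous.intervalIntegrable (by fun_prop) _ _)
    (Continuous.intervalIntegrable (by fun_prop) _ _),
    intervalIntegral.integral_finset_sum
      (fun l _ => Continuous.intervalIntegrable (by fun_prop) _ _),
    intervalIntegral.integral_add (Continuous.intervalIntegrable (by fun_prop) _ _)
    (Continuous.intervalIntegrable (by fun_prop) _ _)]
  have h2 : ∀ l ∈ Icc 1 N, ∫ u in (-Real.pi)..Real.pi, (2 * A * κ l * Real.cos (l * u) +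
        2 * B * κ l * (Real.cos u * Real.cos (l * u))) =
      if l = 1 then 2 * Real.pi * B * κ 1 else 0 := by
    intro l hl
    rw [mem_Icc] at hl
    rw [intervalIntegral.integral_add (Continuous.intervalIntegrable (by fun_prop) _ _)
      (Continuous.intervalIntegrable (by fun_prop) _ _), intervalIntegral.integral_const_mul,
      intervalIntegral.integral_const_mul, int_cos hl.1, int_cos_cos hl.1]
    by_cases h : l = 1
    · rw [if_pos h, if_pos h, h]
      ring
    · rw [if_neg h, if_neg h]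
      ring
  rw [sum_congr rfl h2, sum_ite_eq', intervalIntegral.integral_const_mul, integral_cos]
  simp only [mem_Icc, le_refl, true_and]
  rw [Real.sin_neg, Real.sin_pi]
  simp only [intervalIntegral.integral_const, smul_eq_mul]
  split_ifs <;> ring

theorem t_kern : Pool.Agent.H63.G3.S_KERN := by
  intro N
  have hpi := Real.pi_pos
  obtain ⟨θ, hθ⟩ : ∃ θ : ℝ, θ = Real.pi / (N + 2) := ⟨_, rfl⟩
  have hN : (0 : ℝ) ≤ N := Nat.cast_nonneg N
  have hN2 : (0 : ℝ) < N + 2 := by linarith
  have hθ0 : 0 < θ := by rw [hθ]; positivity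
  have hθ1 : θ ≤ Real.pi / 2 := by
    rw [hθ]
    exact div_le_div_of_nonneg_left hpi.le (by norm_num) (by linarith)
  have hθN : ((N : ℝ) + 2) * θ = Real.pi := by rw [hθ]; field_simp
  obtain ⟨a, ha⟩ : ∃ a : ℕ → ℝ, a = fun j : ℕ => Real.sin (((j : ℝ) + 1) * θ) := ⟨_, rfl⟩
  obtain ⟨S, hS⟩ : ∃ S : ℝ, S = ∑ j ∈ range (N + 1), a j ^ 2 := ⟨_, rfl⟩
  have hS0 : 0 < S := by
    rw [hS]
    refine sum_pos' (fun j _ => sq_nonneg _) ⟨0, by simp, ?_⟩
    rw [ha]
    have : 0 < Real.sin θ := Real.sin_pos_of_pos_of_lt_pi hθ0 (by linarith)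
    simp only [Nat.cast_zero, zero_add, one_mul]
    positivity
  -- the sum of the products of neighbours
  have hnb : ∑ j ∈ range N, a j * a (j + 1) = Real.cos θ * S := by
    have hrec : ∀ j : ℕ, 2 * Real.cos θ * a j ^ 2 =
        Real.sin (j * θ) * Real.sin ((j + 1) * θ) +
        Real.sin (((j + 1 : ℕ) : ℝ) * θ) * Real.sin ((((j + 1 : ℕ) : ℝ) + 1) * θ) := by
      intro j
      rw [ha]
      push_cast
      have e1 : (j : ℝ) * θ = (j + 1) * θ - θ := by ring
      have e2 : ((j : ℝ) + 1 + 1) * θ = (j + 1) * θ + θ := by ring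
      rw [e2, Real.sin_add]
      conv_rhs => rw [e1, Real.sin_sub]
      ring
    have h1 : 2 * (Real.cos θ * S) = ∑ j ∈ range (N + 1), (2 * Real.cos θ * a j ^ 2) := by
      rw [hS, ← mul_sum]
      ring
    rw [sum_congr rfl fun j _ => hrec j, sum_add_distrib] at h1
    have h2 : ∑ j ∈ range (N + 1), Real.sin (j * θ) * Real.sin ((j + 1) * θ) =
        ∑ j ∈ range N, a j * a (j + 1) := by
      rw [sum_range_succ', ha]
      simp
    have h3 : ∑ j ∈ range (N + 1), Real.sin (((j + 1 : ℕ) : ℝ) * θ) *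
        Real.sin ((((j + 1 : ℕ) : ℝ) + 1) * θ) = ∑ j ∈ range N, a j * a (j + 1) := by
      rw [sum_range_succ, ha]
      have e1 : (((N + 1 : ℕ) : ℝ) + 1) * θ = Real.pi := by
        rw [← hθN]
        push_cast
        ring
      rw [e1, Real.sin_pi, mul_zero, add_zero]
      simp
    rw [h2, h3] at h1
    linarith
  refine ⟨fun l => (∑ j ∈ range (N + 1 - l), a j * a (j + l)) / S, ?_, ?_, ?_⟩
  · show (∑ j ∈ range (N + 1 - 0), a j * a (j + 0)) / S = 1
    rw [div_eq_one_iff_eq hS0.ne', hS]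
    refine sum_congr (by simp) fun j _ => ?_
    rw [add_zero]
    ring
  · intro u
    have h1 := autoc a u N
    have h2 : 1 + 2 * ∑ l ∈ Icc 1 N, (∑ j ∈ range (N + 1 - l), a j * a (j + l)) / S *
        Real.cos (l * u) = ((∑ j ∈ range (N + 1), a j * Real.cos (j * u)) ^ 2 +
      (∑ j ∈ range (N + 1), a j * Real.sin (j * u)) ^ 2) / S := by
      rw [h1, ← hS, add_div, div_self hS0.ne', mul_div_assoc, sum_div]
      congr 2
      refine sum_congr rfl fun l _ => ?_
      ring
    show 0 ≤ 1 + 2 * ∑ l ∈ Icc 1 N, (∑ j ∈ range (N + 1 - l), a j * a (j + l)) / S *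
        Real.cos (l * u)
    rw [h2]
    positivity
  · obtain ⟨κ, hκ⟩ : ∃ κ : ℕ → ℝ, κ = fun l => (∑ j ∈ range (N + 1 - l), a j * a (j + l)) / S :=
      ⟨_, rfl⟩
    rw [← hκ]
    have hpos : ∀ u : ℝ, 0 ≤ 1 + 2 * ∑ l ∈ Icc 1 N, κ l * Real.cos (l * u) := by
      intro u
      have h1 := autoc a u N
      have h2 : 1 + 2 * ∑ l ∈ Icc 1 N, κ l *
          Real.cos (l * u) = ((∑ j ∈ range (N + 1), a j * Real.cos (j * u)) ^ 2 +
        (∑ j ∈ range (N + 1), a j * Real.sin (j * u)) ^ 2) / S := by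
        rw [h1, ← hS, add_div, div_self hS0.ne', mul_div_assoc, sum_div]
        congr 2
        refine sum_congr rfl fun l _ => ?_
        rw [hκ]
        ring
      rw [h2]
      positivity
    have hk1 : (if 1 ≤ N then κ 1 else 0) = Real.cos θ := by
      by_cases h : 1 ≤ N
      · rw [if_pos h, hκ]
        show (∑ j ∈ range (N + 1 - 1), a j * a (j + 1)) / S = _
        rw [Nat.add_sub_cancel, hnb]
        field_simp
      · rw [if_neg h]
        have h0 : N = 0 := by omega
        rw [hθ, h0]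
        simp
    obtain ⟨δ, hδ⟩ : ∃ δ : ℝ, δ = Real.sin (θ / 2) := ⟨_, rfl⟩
    have hδ0 : 0 < δ := by
      rw [hδ]
      exact Real.sin_pos_of_pos_of_lt_pi (by linarith) (by linarith)
    have hδ1 : δ ≤ θ / 2 := by
      rw [hδ]
      exact Real.sin_le (by linarith)
    have hcos : Real.cos θ = 1 - 2 * δ ^ 2 := by
      rw [hδ]
      have h1 := Real.cos_two_mul (θ / 2)
      have h2 := Real.sin_sq_add_cos_sq (θ / 2)
      have e1 : 2 * (θ / 2) = θ := by ring
      rw [e1] at h1
      linarith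
    have hpt : ∀ u ∈ Set.Icc (-Real.pi) Real.pi,
        |u| ≤ Real.pi / (2 * δ) * (1 / 2 + δ ^ 2) + (-(Real.pi / (4 * δ))) * Real.cos u := by
      intro u hu
      have hu1 : |u| ≤ Real.pi := abs_le.2 hu
      have h1 := Real.mul_le_sin (x := |u| / 2) (by positivity) (by linarith)
      have h2 : |u| ≤ Real.pi * Real.sin (|u| / 2) := by
        have e1 : 2 / Real.pi * (|u| / 2) = |u| / Real.pi := by ring
        rw [e1, div_le_iff₀ hpi] at h1
        linarith
      have h3 : Real.sin (|u| / 2) ^ 2 = (1 - Real.cos u) / 2 := by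
        have h4 := Real.cos_two_mul (|u| / 2)
        have h5 := Real.sin_sq_add_cos_sq (|u| / 2)
        have e1 : 2 * (|u| / 2) = |u| := by ring
        rw [e1, Real.cos_abs] at h4
        linarith
      have h4 : Real.sin (|u| / 2) ≤ ((1 - Real.cos u) / 2 + δ ^ 2) / (2 * δ) := by
        rw [le_div_iff₀ (by positivity), ← h3]
        nlinarith [sq_nonneg (Real.sin (|u| / 2) - δ)]
      calc |u| ≤ Real.pi * Real.sin (|u| / 2) := h2
        _ ≤ Real.pi * (((1 - Real.cos u) / 2 + δ ^ 2) / (2 * δ)) :=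
            mul_le_mul_of_nonneg_left h4 hpi.le
        _ = _ := by field_simp; ring
    have hint : ∫ u in (-Real.pi)..Real.pi,
        |u| * (1 + 2 * ∑ l ∈ Icc 1 N, κ l * Real.cos (l * u)) ≤
        ∫ u in (-Real.pi)..Real.pi,
        (Real.pi / (2 * δ) * (1 / 2 + δ ^ 2) + (-(Real.pi / (4 * δ))) * Real.cos u) *
          (1 + 2 * ∑ l ∈ Icc 1 N, κ l * Real.cos (l * u)) := by
      apply intervalIntegral.integral_mono_on (by linarith)
      · exact Continuous.intervalIntegrable (by fun_prop) _ _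
      · exact Continuous.intervalIntegrable (by fun_prop) _ _
      · intro u hu
        exact mul_le_mul_of_nonneg_right (hpt u hu) (hpos u)
    refine hint.trans ?_
    rw [int_kern, hk1, hcos]
    have e1 : 2 * Real.pi * (Real.pi / (2 * δ) * (1 / 2 + δ ^ 2)) +
        2 * Real.pi * -(Real.pi / (4 * δ)) * (1 - 2 * δ ^ 2) = 2 * Real.pi * (Real.pi * δ) := by
      field_simp
      ring
    rw [e1]
    apply mul_le_mul_of_nonneg_left _ (by positivity)
    calc Real.pi * δ ≤ Real.pi * (θ / 2) := mul_le_mul_of_nonneg_left hδ1 hpi.le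
      _ = Real.pi ^ 2 / (2 * (N + 2)) := by
          rw [hθ]
          field_simp

end Pool.Agent.H546.G3
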